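import Pool.Agent.H18.QGR.Stmts

/-!
Row DGE of the board qgr: the formula for the free difference quotient of the Wick polynomials.
-/

set_option autoImplicit false

noncomputable section

namespace Pool.QGR

open Pool.CGR

namespace DGEH

variable {m : ℕ}

/-- the sum over all splittings `w = u i v` -/
def sp {M : Type} [AddCommMonoid M] (i : Fin m) :
    List (Fin m) → (List (Fin m) → List (Fin m) → M) → M
  | [], _ => 0
  | a :: w, F => (if a = i then F [] w else 0) + sp i w (fun u v => F (a :: u) v)

section sp

variable {M N : Type} [AddCommMonoid M] [AddCommMonoid N] (i : Fin m)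

theorem sp_nil (F : List (Fin m) → List (Fin m) → M) : sp i [] F = 0 := rfl

theorem sp_cons (a : Fin m) (w : List (Fin m)) (F : List (Fin m) → List (Fin m) → M) :
    sp i (a :: w) F = (if a = i then F [] w else 0) + sp i w (fun u v => F (a :: u) v) := rfl

theorem sp_congr (w : List (Fin m)) (F G : List (Fin m) → List (Fin m) → M)
    (h : ∀ u v, w = u ++ i :: v → F u v = G u v) : sp i w F = sp i w G := by
  induction w generalizing F G with
  | nil => rfl
  | cons a w ih =>
    rw [sp_cons, sp_cons, ih _ _ fun u v huv => h (a :: u) v (by rw [huv, List.cons_append])]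
    congr 1
    split_ifs with ha
    · exact h [] w (by rw [ha, List.nil_append])
    · rfl

theorem sp_sum (w : List (Fin m)) (F : List (Fin m) → List (Fin m) → M) (f : ℕ → M)
    (h : ∀ k, w[k]? = some i → f k = F (w.take k) (w.drop (k + 1))) :
    (∑ k ∈ Finset.range w.length, if w[k]? = some i then f k else 0) = sp i w F := by
  induction w generalizing F f with
  | nil => rfl
  | cons a w ih =>
    rw [List.length_cons, Finset.sum_range_succ', add_comm, sp_cons,
      ← ih (fun u v => F (a :: u) v) (fun k => f (k + 1)) (fun k hk => by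
        rw [h (k + 1) (by rw [List.getElem?_cons_succ]; exact hk)]
        rfl)]
    congr 1
    by_cases ha : a = i
    · rw [if_pos ha, if_pos (by rw [List.getElem?_cons_zero, ha]), h 0 (by
        rw [List.getElem?_cons_zero, ha])]
      rfl
    · rw [if_neg ha, if_neg (by
        rw [List.getElem?_cons_zero]
        intro h1
        exact ha (Option.some.inj h1))]

theorem sp_zero (w : List (Fin m)) : sp i w (fun _ _ => (0 : M)) = 0 := by
  induction w with
  | nil => rfl
  | cons a w ih => rw [sp_cons, ih, add_zero, ite_self]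

theorem sp_add (w : List (Fin m)) (F G : List (Fin m) → List (Fin m) → M) :
    sp i w (fun u v => F u v + G u v) = sp i w F + sp i w G := by
  induction w generalizing F G with
  | nil => simp [sp]
  | cons a w ih =>
    rw [sp_cons, sp_cons, sp_cons, ih]
    split_ifs
    · rw [add_add_add_comm]
    · rw [zero_add, zero_add, zero_add]

theorem sp_map (L : M →+ N) (w : List (Fin m)) (F : List (Fin m) → List (Fin m) → M) :
    L (sp i w F) = sp i w (fun u v => L (F u v)) := by
  induction w generalizing F with
  | nil => simp [sp]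
  | cons a w ih =>
    rw [sp_cons, sp_cons, map_add, ih]
    congr 1
    split_ifs
    · rfl
    · exact map_zero L

theorem sp_append (a b : List (Fin m)) (F : List (Fin m) → List (Fin m) → M) :
    sp i (a ++ b) F = sp i a (fun u v => F u (v ++ b)) + sp i b (fun u v => F (a ++ u) v) := by
  induction a generalizing F with
  | nil => rw [List.nil_append, sp_nil, zero_add]; rfl
  | cons c a ih =>
    rw [List.cons_append, sp_cons, sp_cons, ih, add_assoc]
    rfl

theorem sp_swap (j : Fin m) (w : List (Fin m))
    (G : List (Fin m) → List (Fin m) → List (Fin m) → M) :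
    sp j w (fun a b => sp i a (fun u v => G u v b)) =
      sp i w (fun u v' => sp j v' (fun v b => G u v b)) := by
  induction w generalizing G with
  | nil => rfl
  | cons c w ih =>
    rw [sp_cons, sp_cons]
    have h1 : (if c = j then sp i [] (fun u v => G u v w) else 0) = (0 : M) := by
      rw [sp_nil, ite_self]
    rw [h1, zero_add]
    have h2 : sp j w (fun a b => sp i (c :: a) (fun u v => G u v b)) =
        sp j w (fun a b => (if c = i then G [] a b else 0) + sp i a (fun u v => G (c :: u) v b)) :=
      rfl
    rw [h2, sp_add, ih (fun u v b => G (c :: u) v b)]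
    congr 1
    split_ifs
    · rfl
    · exact sp_zero j w

end sp

/-! ### the operators as split sums -/

variable (q : Fin m → Fin m → ℝ)

theorem om_nil (j : Fin m) : om q j [] = 1 := rfl

theorem om_cons (j a : Fin m) (w : List (Fin m)) : om q j (a :: w) = (q j a : ℂ) * om q j w := by
  simp [om]

theorem om_append (j : Fin m) (u v : List (Fin m)) : om q j (u ++ v) = om q j u * om q j v := by
  simp [om]

theorem an_single (j : Fin m) (w : List (Fin m)) :
    an q j (Finsupp.single w 1) = sp j w (fun a b => Finsupp.single (a ++ b) (om q j a)) := by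
  unfold an
  rw [Finsupp.linearCombination_single, one_smul]
  refine sp_sum j w _ _ fun k _ => ?_
  rw [List.eraseIdx_eq_take_drop_succ]

theorem ar_single (j : Fin m) (w : List (Fin m)) :
    ar q j (Finsupp.single w 1) = sp j w (fun a b => Finsupp.single (a ++ b) (om q j b)) := by
  unfold ar
  rw [Finsupp.linearCombination_single, one_smul]
  refine sp_sum j w _ _ fun k _ => ?_
  rw [List.eraseIdx_eq_take_drop_succ]

theorem cn_single (j : Fin m) (w : List (Fin m)) (c : ℂ) :
    cn j (Finsupp.single w c) = Finsupp.single (j :: w) c := by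
  simp [cn]

/-- the weight operator -/
def Dj (j : Fin m) : E m →ₗ[ℂ] E m :=
  Finsupp.linearCombination ℂ fun z => Finsupp.single z (om q j z)

theorem Dj_single (j : Fin m) (z : List (Fin m)) (c : ℂ) :
    Dj q j (Finsupp.single z c) = om q j z • Finsupp.single z c := by
  unfold Dj
  rw [Finsupp.linearCombination_single, Finsupp.smul_single, Finsupp.smul_single, smul_eq_mul,
    smul_eq_mul, mul_comm]

theorem lin_ext (L L' : E m →ₗ[ℂ] E m)
    (h : ∀ w, L (Finsupp.single w 1) = L' (Finsupp.single w 1)) : L = L' :=
  Finsupp.lhom_ext' fun w => LinearMap.ext_ring (h w)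

theorem ar_cn (c j : Fin m) (g : E m) :
    ar q c (cn j g) = (if c = j then Dj q j g else 0) + cn j (ar q c g) := by
  have h : (ar q c).comp (cn j) = (if c = j then Dj q j else 0) + (cn j).comp (ar q c) := by
    refine lin_ext _ _ fun w => ?_
    rw [LinearMap.comp_apply, LinearMap.add_apply, LinearMap.comp_apply, cn_single, ar_single,
      ar_single, sp_cons]
    have h1 : (cn j : E m →ₗ[ℂ] E m) (sp c w fun a b => Finsupp.single (a ++ b) (om q c b)) =
        sp c w (fun a b => Finsupp.single (j :: a ++ b) (om q c b)) := by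
      have h2 := sp_map c (cn j : E m →ₗ[ℂ] E m).toAddMonoidHom w
        (fun a b => Finsupp.single (a ++ b) (om q c b))
      simp only [LinearMap.toAddMonoidHom_coe] at h2
      rw [h2]
      exact sp_congr c w _ _ fun u v _ => by rw [cn_single, List.cons_append]
    rw [h1]
    congr 1
    by_cases hc : c = j
    · rw [if_pos hc, if_pos hc.symm, Dj_single, List.nil_append, Finsupp.smul_single, smul_eq_mul,
        mul_one, hc]
    · rw [if_neg hc, if_neg (Ne.symm hc), LinearMap.zero_apply]
  have h2 := congrArg (fun L : E m →ₗ[ℂ] E m => L g) h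
  simp only [LinearMap.comp_apply, LinearMap.add_apply] at h2
  rw [h2]
  congr 1
  split_ifs
  · rfl
  · rfl

theorem Ar_cons (a : Fin m) (v : List (Fin m)) (f : E m) : Ar q (a :: v) f = ar q a (Ar q v f) := rfl

theorem Ar_append (a b : List (Fin m)) (f : E m) : Ar q (a ++ b) f = Ar q a (Ar q b f) := by
  induction a with
  | nil => rfl
  | cons c a ih => rw [List.cons_append, Ar_cons, ih, Ar_cons]

theorem Ar_cn (j : Fin m) (v : List (Fin m)) (f : E m) :
    Ar q v (cn j f) = cn j (Ar q v f) + sp j v (fun a b => Ar q a (Dj q j (Ar q b f))) := by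
  induction v with
  | nil => rw [sp_nil, add_zero]; rfl
  | cons c v ih =>
    rw [Ar_cons, ih, map_add, ar_cn, sp_cons, Ar_cons]
    have h2 := sp_map j (ar q c).toAddMonoidHom v (fun a b => Ar q a (Dj q j (Ar q b f)))
    simp only [LinearMap.toAddMonoidHom_coe] at h2
    rw [h2, add_comm (if c = j then Dj q j (Ar q v f) else 0), add_assoc]
    rfl

theorem Dj_ar (j a : Fin m) (g : E m) :
    (q j a : ℂ) • Dj q j (ar q a g) = ar q a (Dj q j g) := by
  have h : (q j a : ℂ) • (Dj q j).comp (ar q a) = (ar q a).comp (Dj q j) := by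
    refine lin_ext _ _ fun w => ?_
    rw [LinearMap.smul_apply, LinearMap.comp_apply, LinearMap.comp_apply, Dj_single, map_smul,
      ar_single]
    have h2 := sp_map a (((q j a : ℂ) • Dj q j) : E m →ₗ[ℂ] E m).toAddMonoidHom w
      (fun x y => Finsupp.single (x ++ y) (om q a y))
    have h3 := sp_map a ((om q j w • LinearMap.id) : E m →ₗ[ℂ] E m).toAddMonoidHom w
      (fun x y => Finsupp.single (x ++ y) (om q a y))
    simp only [LinearMap.toAddMonoidHom_coe, LinearMap.smul_apply, LinearMap.id_apply] at h2 h3
    rw [h2, h3]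
    refine sp_congr a w _ _ fun u v huv => ?_
    rw [Dj_single, huv, smul_smul]
    congr 1
    rw [om_append, om_append, om_cons]
    ring
  exact congrArg (fun L : E m →ₗ[ℂ] E m => L g) h

theorem Dj_Ar (j : Fin m) (v : List (Fin m)) (f : E m) :
    om q j v • Dj q j (Ar q v f) = Ar q v (Dj q j f) := by
  induction v with
  | nil => rw [om_nil, one_smul]; rfl
  | cons a v ih =>
    rw [om_cons, Ar_cons, Ar_cons, ← ih, mul_comm, ← smul_smul, Dj_ar, map_smul]

theorem pr_split (hq : ∀ i j, q i j = q j i) (j : Fin m) (x y : List (Fin m)) :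
    pr q (x ++ j :: y) = om q j x * om q j y * pr q (x ++ y) := by
  induction x with
  | nil =>
    rw [List.nil_append, List.nil_append, om_nil, one_mul]
    rfl
  | cons c x ih =>
    rw [List.cons_append, List.cons_append]
    change om q c (x ++ j :: y) * pr q (x ++ j :: y) =
      om q j (c :: x) * om q j y * (om q c (x ++ y) * pr q (x ++ y))
    rw [ih, om_append, om_append, om_cons, om_cons, hq j c]
    ring

theorem pr_split' (hq : ∀ i j, q i j = q j i) (i j : Fin m) (x y : List (Fin m)) :
    pr q (i :: (x ++ j :: y)) = (q i j : ℂ) * om q j x * om q j y * pr q (i :: (x ++ y)) := by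
  change om q i (x ++ j :: y) * pr q (x ++ j :: y) =
    (q i j : ℂ) * om q j x * om q j y * (om q i (x ++ y) * pr q (x ++ y))
  rw [pr_split q hq, om_append, om_append, om_cons]
  ring

/-- the term of the splitting `w = u i v` -/
def Tm (i : Fin m) (u v : List (Fin m)) : E m :=
  ((-1 : ℂ) ^ v.length * pr q (i :: v)) • Ar q v (Finsupp.single u 1)

theorem Ge_eq (i : Fin m) (w : List (Fin m)) : Ge q i w = sp i w (Tm q i) := by
  unfold Ge
  refine sp_sum i w _ _ fun k hk => ?_
  obtain ⟨hlt, hget⟩ := List.getElem?_eq_some_iff.1 hk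
  unfold Tm
  rw [List.length_drop, List.drop_eq_getElem_cons hlt, hget]
  congr 3
  omega

theorem GeL_an (i j : Fin m) (w : List (Fin m)) :
    GeL q i (an q j (Finsupp.single w 1)) = sp j w (fun a b => om q j a • Ge q i (a ++ b)) := by
  rw [an_single]
  have h2 := sp_map j (GeL q i).toAddMonoidHom w
    (fun a b => Finsupp.single (a ++ b) (om q j a))
  simp only [LinearMap.toAddMonoidHom_coe] at h2
  rw [h2]
  refine sp_congr j w _ _ fun u v _ => ?_
  unfold GeL
  rw [Finsupp.linearCombination_single]

theorem an_Ar (hARC : ARCStmt) (hq : ∀ i j, q i j = q j i) (j : Fin m) (v : List (Fin m))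
    (f : E m) : an q j (Ar q v f) = Ar q v (an q j f) := by
  induction v with
  | nil => rfl
  | cons a v ih => rw [Ar_cons, hARC m q hq, ih, Ar_cons]

theorem Ar_zero (w : List (Fin m)) :
    Ar q w (Finsupp.single [] 1) = if w = [] then Finsupp.single [] 1 else 0 := by
  induction w with
  | nil => rfl
  | cons c w ih =>
    rw [Ar_cons, ih, if_neg (List.cons_ne_nil _ _)]
    split_ifs
    · rw [ar_single, sp_nil]
    · exact map_zero _

end DGEH

open DGEH in
theorem dge_thm (hARC : ARCStmt) : DGEStmt := by
  intro m q hq i j w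
  -- the terms with the additional letter
  have h1 : ∀ u v : List (Fin m), Tm q i (j :: u) v = cn j (Tm q i u v) -
      sp j v (fun a b => om q j (u ++ i :: a) • Tm q i u (a ++ b)) := by
    intro u v
    have h2 : Tm q i (j :: u) v =
        ((-1 : ℂ) ^ v.length * pr q (i :: v)) • Ar q v (cn j (Finsupp.single u 1)) := by
      rw [cn_single]
      rfl
    rw [h2, Ar_cn, smul_add, sub_eq_add_neg]
    congr 1
    · unfold Tm
      rw [map_smul]
    · have h3 := sp_map j (((-1 : ℂ) ^ v.length * pr q (i :: v)) •
        (LinearMap.id : E m →ₗ[ℂ] E m)).toAddMonoidHom v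
        (fun a b => Ar q a (Dj q j (Ar q b (Finsupp.single u 1))))
      have h4 := sp_map j (-(LinearMap.id : E m →ₗ[ℂ] E m)).toAddMonoidHom v
        (fun a b => om q j (u ++ i :: a) • Tm q i u (a ++ b))
      simp only [LinearMap.toAddMonoidHom_coe, LinearMap.smul_apply, LinearMap.neg_apply,
        LinearMap.id_apply] at h3 h4
      rw [h3, h4]
      refine sp_congr j v _ _ fun a b hab => ?_
      have h6 : ((-1 : ℂ) ^ v.length * pr q (i :: v)) =
          (-((q j i : ℂ) * om q j a * ((-1 : ℂ) ^ (a ++ b).length * pr q (i :: (a ++ b))))) *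
            om q j b := by
        rw [hab, pr_split' q hq, List.length_append, List.length_append, List.length_cons,
          hq j i]
        ring
      rw [h6, ← smul_smul, ← map_smul, Dj_Ar, Dj_single, map_smul, map_smul, ← Ar_append]
      unfold Tm
      rw [smul_smul, smul_smul, ← neg_smul]
      congr 1
      rw [om_append, om_cons]
      ring
  -- the terms of `an j`
  have h2 : ∀ u v : List (Fin m), an q j (Tm q i u v) =
      sp j u (fun a b => om q j a • Tm q i (a ++ b) v) := by
    intro u v
    have h3 : an q j (Tm q i u v) = ((-1 : ℂ) ^ v.length * pr q (i :: v)) •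
        Ar q v (an q j (Finsupp.single u 1)) := by
      unfold Tm
      rw [map_smul, an_Ar q hARC hq]
    have h4 := sp_map j (((-1 : ℂ) ^ v.length * pr q (i :: v)) • Ar q v).toAddMonoidHom u
      (fun a b => Finsupp.single (a ++ b) (om q j a))
    simp only [LinearMap.toAddMonoidHom_coe, LinearMap.smul_apply] at h4
    rw [h3, an_single, h4]
    refine sp_congr j u _ _ fun a b _ => ?_
    have h5 : (Finsupp.single (a ++ b) (om q j a) : E m) =
        om q j a • Finsupp.single (a ++ b) 1 := by
      rw [Finsupp.smul_single, smul_eq_mul, mul_one]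
    rw [h5, map_smul, smul_smul, mul_comm, ← smul_smul]
    rfl
  -- `GeL (an j e_w)`
  have h3 : GeL q i (an q j (Finsupp.single w 1)) =
      sp i w (fun u v => sp j v (fun a b => om q j (u ++ i :: a) • Tm q i u (a ++ b))) +
      sp i w (fun u v => sp j u (fun a b => om q j a • Tm q i (a ++ b) v)) := by
    rw [GeL_an]
    have h4 : sp j w (fun a b => om q j a • Ge q i (a ++ b)) =
        sp j w (fun a b => sp i a (fun u v => om q j (u ++ i :: v) • Tm q i u (v ++ b)) +
          sp i b (fun u v => om q j a • Tm q i (a ++ u) v)) := by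
      refine sp_congr j w _ _ fun a b _ => ?_
      rw [Ge_eq, sp_append, smul_add]
      have h5 := sp_map i (om q j a • (LinearMap.id : E m →ₗ[ℂ] E m)).toAddMonoidHom a
        (fun u v => Tm q i u (v ++ b))
      have h6 := sp_map i (om q j a • (LinearMap.id : E m →ₗ[ℂ] E m)).toAddMonoidHom b
        (fun u v => Tm q i (a ++ u) v)
      simp only [LinearMap.toAddMonoidHom_coe, LinearMap.smul_apply, LinearMap.id_apply] at h5 h6
      rw [h5, h6]
      congr 1
      exact sp_congr i a _ _ fun u v huv => by rw [huv]
    rw [h4, sp_add]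
    congr 1
    · exact sp_swap i j w (fun u v b => om q j (u ++ i :: v) • Tm q i u (v ++ b))
    · exact (sp_swap j i w (fun a u v => om q j a • Tm q i (a ++ u) v)).symm
  have h4 : (cn j : E m →ₗ[ℂ] E m) (Ge q i w) = sp i w (fun u v => cn j (Tm q i u v)) := by
    rw [Ge_eq]
    exact sp_map i (cn j : E m →ₗ[ℂ] E m).toAddMonoidHom w (Tm q i)
  have h5 : an q j (Ge q i w) =
      sp i w (fun u v => sp j u (fun a b => om q j a • Tm q i (a ++ b) v)) := by
    rw [Ge_eq]
    refine (sp_map i (an q j).toAddMonoidHom w (Tm q i)).trans ?_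
    exact sp_congr i w _ _ fun u v _ => h2 u v
  have h6 : sp i w (fun u v => Tm q i (j :: u) v) +
      sp i w (fun u v => sp j v (fun a b => om q j (u ++ i :: a) • Tm q i u (a ++ b))) =
      sp i w (fun u v => cn j (Tm q i u v)) := by
    rw [← sp_add]
    refine sp_congr i w _ _ fun u v _ => ?_
    rw [h1 u v, sub_add_cancel]
  have h7 : (if j = i then Tm q i [] w else 0) =
      if i = j ∧ w = [] then (Finsupp.single [] 1 : E m) else 0 := by
    by_cases hij : j = i
    · rw [if_pos hij]
      unfold Tm
      rw [Ar_zero]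
      by_cases hw : w = []
      · rw [if_pos hw, if_pos ⟨hij.symm, hw⟩, hw]
        simp [pr, om]
      · rw [if_neg hw, if_neg (fun h => hw h.2), smul_zero]
    · rw [if_neg hij, if_neg (fun h => hij h.1.symm)]
  have hX : X q j (Ge q i w) = (cn j : E m →ₗ[ℂ] E m) (Ge q i w) + an q j (Ge q i w) := rfl
  rw [Ge_eq q i (j :: w), sp_cons, h7, hX, h3, h4, h5, ← h6]
  abel

end Pool.QGR
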